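import Pool.Agent.H895R3.QC.All

/-!
# Building blocks: solutions for the matrices `D₁ P D₂`
-/

set_option autoImplicit false

open MeasureTheory Filter Topology Set
open Pool.Agent.H895R3.QC

namespace Pool.Agent.Y909.QX

/-- the image of a null set of the plane under a Lipschitz map is a null set -/
theorem lip_null {f : ℂ → ℂ} {K : ℝ} (h : ∀ z w, ‖f z - f w‖ ≤ K * ‖z - w‖) {N : Set ℂ}
    (hN : volume N = 0) : volume (f '' N) = 0 := by
  have hf : LipschitzWith (Real.toNNReal K) f := by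
    refine LipschitzWith.of_dist_le_mul fun z w => ?_
    rw [dist_eq_norm, dist_eq_norm]
    exact (h z w).trans (mul_le_mul_of_nonneg_right (Real.le_coe_toNNReal K) (norm_nonneg _))
  have h2 : (Module.finrank ℝ ℂ : ℝ) = 2 := by rw [Complex.finrank_real_complex]; norm_num
  have hH : (μH[2] : Measure ℂ).IsAddHaarMeasure := by
    have := isAddHaarMeasure_hausdorffMeasure (E := ℂ)
    rwa [h2] at this
  have e1 : (μH[2] : Measure ℂ) N = 0 :=
    Measure.absolutelyContinuous_isAddHaarMeasure (μH[2] : Measure ℂ) (volume : Measure ℂ) hN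
  have e2 : (μH[2] : Measure ℂ) (f '' N) = 0 := by
    have h3 := hf.hausdorffMeasure_image_le (d := 2) (by norm_num) N
    rw [e1, mul_zero] at h3
    exact le_antisymm h3 bot_le
  exact Measure.absolutelyContinuous_isAddHaarMeasure (volume : Measure ℂ) (μH[2] : Measure ℂ) e2

/-- the matrix is diagonal with positive entries or antidiagonal with entries of opposite signs,
with dilatation at most `K` -/
def IsF (K : ℝ) (F : V) : Prop :=
  (F.2.1 = 0 ∧ F.2.2.1 = 0 ∧ 0 < F.1 ∧ 0 < F.2.2.2 ∧ F.1 ≤ K * F.2.2.2 ∧ F.2.2.2 ≤ K * F.1) ∨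
  (F.1 = 0 ∧ F.2.2.2 = 0 ∧ F.2.1 * F.2.2.1 < 0 ∧ |F.2.1| ≤ K * |F.2.2.1| ∧
    |F.2.2.1| ≤ K * |F.2.1|)

/-- `f` is affine near `z` with such a matrix -/
def LocF (K : ℝ) (f : ℂ → ℂ) (z : ℂ) : Prop :=
  ∃ B : V, IsF K B ∧ ∃ c : ℂ, ∀ᶠ w in 𝓝 z, f w = lin B w + c

theorem IsF.mono {K K' : ℝ} (h : K ≤ K') {F : V} (hF : IsF K F) : IsF K' F := by
  rcases hF with ⟨h1, h2, h3, h4, h5, h6⟩ | ⟨h1, h2, h3, h4, h5⟩
  · refine Or.inl ⟨h1, h2, h3, h4, ?_, ?_⟩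
    · nlinarith
    · nlinarith
  · refine Or.inr ⟨h1, h2, h3, ?_, ?_⟩
    · nlinarith [abs_nonneg F.2.2.1]
    · nlinarith [abs_nonneg F.2.1]

theorem LocF.mono {K K' : ℝ} (h : K ≤ K') {f : ℂ → ℂ} {z : ℂ} (hF : LocF K f z) : LocF K' f z := by
  obtain ⟨B, hB, c, hc⟩ := hF
  exact ⟨B, hB.mono h, c, hc⟩

/-- the solutions of the library -/
theorem sol {P : V} (hP : P ∈ UU) {Q : Set ℂ} (hQ : IsOpen Q) (hv : volume Q ≠ ⊤) :
    SolP 45 (45 / 100) P Q := by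
  obtain ⟨hS, -⟩ := t_ALG t_OPN
  have hcel := t_CEL t_LIN t_BIL t_MV t_SRJ t_UNA t_UNB UU 45 100 (by norm_num) (by norm_num) hS
  have hok := hS.2.1
  have hsca : ScaC := t_SCA t_LIN
  have hglu : GluC := t_GL2 t_LIN t_GLU
  have hcov : CovC := t_COV t_VIT t_PCS
  have hstp := t_STP t_LIN hcov hglu hsca UU 45 100 P Q (by norm_num) (by norm_num) hok hcel hQ
  exact t_LIM t_LIN UU 45 100 P Q (by norm_num) (by norm_num) hok hP hQ hv hstp

/-- the diagonal map -/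
def dg (a b : ℝ) (z : ℂ) : ℂ := ⟨a * z.re, b * z.im⟩

theorem dg_sub (a b : ℝ) (z w : ℂ) : dg a b z - dg a b w = dg a b (z - w) := by
  apply Complex.ext <;> simp [dg] <;> ring

theorem dg_norm (a b : ℝ) (z : ℂ) : ‖dg a b z‖ ≤ (|a| + |b|) * ‖z‖ := by
  calc ‖dg a b z‖ ≤ |(dg a b z).re| + |(dg a b z).im| := Complex.norm_le_abs_re_add_abs_im _
    _ = |a| * |z.re| + |b| * |z.im| := by simp [dg, abs_mul]
    _ ≤ |a| * ‖z‖ + |b| * ‖z‖ := by
        refine add_le_add ?_ ?_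
        · exact mul_le_mul_of_nonneg_left (Complex.abs_re_le_norm z) (abs_nonneg _)
        · exact mul_le_mul_of_nonneg_left (Complex.abs_im_le_norm z) (abs_nonneg _)
    _ = (|a| + |b|) * ‖z‖ := by ring

theorem dg_lip (a b : ℝ) (z w : ℂ) : ‖dg a b z - dg a b w‖ ≤ (|a| + |b|) * ‖z - w‖ := by
  rw [dg_sub]; exact dg_norm a b _

theorem dg_cont (a b : ℝ) : Continuous (dg a b) := by
  have : LipschitzWith (Real.toNNReal (|a| + |b|)) (dg a b) := by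
    refine LipschitzWith.of_dist_le_mul fun z w => ?_
    rw [dist_eq_norm, dist_eq_norm]
    exact (dg_lip a b z w).trans
      (mul_le_mul_of_nonneg_right (Real.le_coe_toNNReal _) (norm_nonneg _))
  exact this.continuous

theorem dg_inv {a b : ℝ} (ha : a ≠ 0) (hb : b ≠ 0) (z : ℂ) : dg a⁻¹ b⁻¹ (dg a b z) = z := by
  apply Complex.ext
  · simp [dg, ha]
  · simp [dg, hb]

theorem dg_inv' {a b : ℝ} (ha : a ≠ 0) (hb : b ≠ 0) (z : ℂ) : dg a b (dg a⁻¹ b⁻¹ z) = z := by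
  apply Complex.ext
  · simp [dg, ha]
  · simp [dg, hb]

/-- `diag(a₁, a₂) P diag(b₁, b₂)` -/
def cj (a1 a2 b1 b2 : ℝ) (P : V) : V :=
  (a1 * P.1 * b1, a1 * P.2.1 * b2, a2 * P.2.2.1 * b1, a2 * P.2.2.2 * b2)

theorem dg_lin_dg (a1 a2 b1 b2 : ℝ) (P : V) (z : ℂ) :
    dg a1 a2 (lin P (dg b1 b2 z)) = lin (cj a1 a2 b1 b2 P) z := by
  apply Complex.ext <;> simp [dg, lin, cj] <;> ring

theorem dg_add (a b : ℝ) (z w : ℂ) : dg a b (z + w) = dg a b z + dg a b w := by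
  apply Complex.ext <;> simp [dg] <;> ring

theorem isF_cj {a1 a2 b1 b2 : ℝ} (ha : 0 < a1) (hb : 0 < b1) (hab : 0 < a2 * b2) :
    ∃ K : ℝ, ∀ B : V, IsL B → IsF K (cj a1 a2 b1 b2 B) := by
  have h1 : 0 < a1 * b1 := mul_pos ha hb
  have ha2 : a2 ≠ 0 := by
    rintro rfl
    simp at hab
  have hb2 : b2 ≠ 0 := by
    rintro rfl
    simp at hab
  set x := a1 * b1 with hx
  set y := a2 * b2 with hy
  set u := |a1 * b2| with hu
  set v := |a2 * b1| with hv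
  have hu0 : 0 < u := abs_pos.2 (mul_ne_zero ha.ne' hb2)
  have hv0 : 0 < v := abs_pos.2 (mul_ne_zero ha2 hb.ne')
  have k1 : 0 ≤ 6.1 * (x / y) := by positivity
  have k2 : 0 ≤ 6.1 * (y / x) := by positivity
  have k3 : 0 ≤ 6.1 * (u / v) := by positivity
  have k4 : 0 ≤ 6.1 * (v / u) := by positivity
  refine ⟨6.1 * (x / y) + 6.1 * (y / x) + 6.1 * (u / v) + 6.1 * (v / u), ?_⟩
  set K := 6.1 * (x / y) + 6.1 * (y / x) + 6.1 * (u / v) + 6.1 * (v / u) with hK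
  have m1 : x * 6.1 ≤ K * y := by
    have : 6.1 * (x / y) * y = x * 6.1 := by field_simp
    rw [← this]
    exact mul_le_mul_of_nonneg_right (by linarith) hab.le
  have m2 : y * 6.1 ≤ K * x := by
    have : 6.1 * (y / x) * x = y * 6.1 := by field_simp
    rw [← this]
    exact mul_le_mul_of_nonneg_right (by linarith) h1.le
  have m3 : u * 6.1 ≤ K * v := by
    have : 6.1 * (u / v) * v = u * 6.1 := by field_simp
    rw [← this]
    exact mul_le_mul_of_nonneg_right (by linarith) hv0.le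
  have m4 : v * 6.1 ≤ K * u := by
    have : 6.1 * (v / u) * u = v * 6.1 := by field_simp
    rw [← this]
    exact mul_le_mul_of_nonneg_right (by linarith) hu0.le
  intro B hB
  rcases hB with ⟨e1, e2, e3, e4, e5, e6⟩ | ⟨e1, e2, e3, e4, e5, e6⟩
  · refine Or.inl ⟨by simp [cj, e1], by simp [cj, e2], ?_, ?_, ?_, ?_⟩
    · change 0 < a1 * B.1 * b1
      positivity
    · change 0 < a2 * B.2.2.2 * b2
      have : a2 * B.2.2.2 * b2 = y * B.2.2.2 := by rw [hy]; ring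
      rw [this]; positivity
    · change a1 * B.1 * b1 ≤ K * (a2 * B.2.2.2 * b2)
      have i1 : a1 * B.1 * b1 = x * B.1 := by rw [hx]; ring
      have i2 : K * (a2 * B.2.2.2 * b2) = (K * y) * B.2.2.2 := by rw [hy]; ring
      rw [i1, i2]
      calc x * B.1 ≤ x * (6.1 * B.2.2.2) := mul_le_mul_of_nonneg_left e5 h1.le
        _ = (x * 6.1) * B.2.2.2 := by ring
        _ ≤ (K * y) * B.2.2.2 := mul_le_mul_of_nonneg_right m1 e4.le
    · change a2 * B.2.2.2 * b2 ≤ K * (a1 * B.1 * b1)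
      have i1 : a2 * B.2.2.2 * b2 = y * B.2.2.2 := by rw [hy]; ring
      have i2 : K * (a1 * B.1 * b1) = (K * x) * B.1 := by rw [hx]; ring
      rw [i1, i2]
      calc y * B.2.2.2 ≤ y * (6.1 * B.1) := mul_le_mul_of_nonneg_left e6 hab.le
        _ = (y * 6.1) * B.1 := by ring
        _ ≤ (K * x) * B.1 := mul_le_mul_of_nonneg_right m2 e3.le
  · refine Or.inr ⟨by simp [cj, e1], by simp [cj, e2], ?_, ?_, ?_⟩
    · change a1 * B.2.1 * b2 * (a2 * B.2.2.1 * b1) < 0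
      have : a1 * B.2.1 * b2 * (a2 * B.2.2.1 * b1) = (x * y) * (B.2.2.1 * B.2.1) := by
        rw [hx, hy]; ring
      rw [this]
      exact mul_neg_of_pos_of_neg (by positivity) (mul_neg_of_pos_of_neg e4 e3)
    · change |a1 * B.2.1 * b2| ≤ K * |a2 * B.2.2.1 * b1|
      have i1 : |a1 * B.2.1 * b2| = u * (-B.2.1) := by
        rw [show a1 * B.2.1 * b2 = (a1 * b2) * B.2.1 by ring, abs_mul, abs_of_neg e3]
      have i2 : |a2 * B.2.2.1 * b1| = v * B.2.2.1 := by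
        rw [show a2 * B.2.2.1 * b1 = (a2 * b1) * B.2.2.1 by ring, abs_mul, abs_of_pos e4]
      rw [i1, i2]
      calc u * (-B.2.1) ≤ u * (6.1 * B.2.2.1) := mul_le_mul_of_nonneg_left e5 hu0.le
        _ = (u * 6.1) * B.2.2.1 := by ring
        _ ≤ (K * v) * B.2.2.1 := mul_le_mul_of_nonneg_right m3 e4.le
        _ = K * (v * B.2.2.1) := by ring
    · change |a2 * B.2.2.1 * b1| ≤ K * |a1 * B.2.1 * b2|
      have i1 : |a1 * B.2.1 * b2| = u * (-B.2.1) := by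
        rw [show a1 * B.2.1 * b2 = (a1 * b2) * B.2.1 by ring, abs_mul, abs_of_neg e3]
      have i2 : |a2 * B.2.2.1 * b1| = v * B.2.2.1 := by
        rw [show a2 * B.2.2.1 * b1 = (a2 * b1) * B.2.2.1 by ring, abs_mul, abs_of_pos e4]
      rw [i1, i2]
      calc v * B.2.2.1 ≤ v * (6.1 * (-B.2.1)) := mul_le_mul_of_nonneg_left e6 hv0.le
        _ = (v * 6.1) * (-B.2.1) := by ring
        _ ≤ (K * u) * (-B.2.1) := mul_le_mul_of_nonneg_right m4 (by linarith)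
        _ = K * (u * (-B.2.1)) := by ring

/-- a solution with boundary values `diag(a₁, a₂) P diag(b₁, b₂)` on the unit square -/
theorem blk {P : V} (hP : P ∈ UU) {a1 a2 b1 b2 : ℝ} (ha : 0 < a1) (hb : 0 < b1)
    (hab : 0 < a2 * b2) :
    ∃ (M K D : ℝ) (f g : ℂ → ℂ), 0 < M ∧ 0 < K ∧
      (∀ z w, ‖f z - f w‖ ≤ M * ‖z - w‖) ∧ (∀ z w, ‖g z - g w‖ ≤ K * ‖z - w‖) ∧
      (∀ z, g (f z) = z) ∧ (∀ z, f (g z) = z) ∧
      (∀ z, z ∉ Qo → f z = lin (cj a1 a2 b1 b2 P) z) ∧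
      (∀ᵐ z ∂(volume.restrict Qo), LocF D f z) := by
  have ha2 : a2 ≠ 0 := by
    rintro rfl
    simp at hab
  have hb2 : b2 ≠ 0 := by
    rintro rfl
    simp at hab
  obtain ⟨D, hD⟩ := isF_cj ha hb hab
  set Q : Set ℂ := dg b1⁻¹ b2⁻¹ ⁻¹' Qo with hQ
  have hQo : IsOpen Q := pln_Qo_open.preimage (dg_cont _ _)
  have hQb : volume Q ≠ ⊤ := by
    have h1 : Q ⊆ dg b1 b2 '' Qo := by
      intro z hz
      exact ⟨_, hz, dg_inv' hb.ne' hb2 z⟩
    have h2 : dg b1 b2 '' Qo ⊆ dg b1 b2 '' Sq := image_mono pln_Qo_sub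
    have h3 : IsCompact (dg b1 b2 '' Sq) := pln_Sq_compact.image (dg_cont _ _)
    exact ne_top_of_le_ne_top h3.measure_lt_top.ne (measure_mono (h1.trans h2))
  obtain ⟨f, g, hf, hg, hgf, hfg, hout, hae⟩ := sol hP hQo hQb
  have pa : 0 < |a1| + |a2| := by positivity
  have pb : 0 < |b1| + |b2| := by positivity
  have pa' : 0 < |a1⁻¹| + |a2⁻¹| := by positivity
  have pb' : 0 < |b1⁻¹| + |b2⁻¹| := by positivity
  refine ⟨(|a1| + |a2|) * (45 * (|b1| + |b2|)),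
    (|b1⁻¹| + |b2⁻¹|) * (45 / 100 * (|a1⁻¹| + |a2⁻¹|)), D,
    fun z => dg a1 a2 (f (dg b1 b2 z)), fun z => dg b1⁻¹ b2⁻¹ (g (dg a1⁻¹ a2⁻¹ z)),
    by positivity, by positivity, ?_, ?_, ?_, ?_, ?_, ?_⟩
  · intro z w
    calc ‖dg a1 a2 (f (dg b1 b2 z)) - dg a1 a2 (f (dg b1 b2 w))‖
        ≤ (|a1| + |a2|) * ‖f (dg b1 b2 z) - f (dg b1 b2 w)‖ := dg_lip _ _ _ _
      _ ≤ (|a1| + |a2|) * (45 * ((|b1| + |b2|) * ‖z - w‖)) := by
          refine mul_le_mul_of_nonneg_left ?_ pa.le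
          exact (hf _ _).trans (mul_le_mul_of_nonneg_left (dg_lip _ _ _ _) (by norm_num))
      _ = _ := by ring
  · intro z w
    calc ‖dg b1⁻¹ b2⁻¹ (g (dg a1⁻¹ a2⁻¹ z)) - dg b1⁻¹ b2⁻¹ (g (dg a1⁻¹ a2⁻¹ w))‖
        ≤ (|b1⁻¹| + |b2⁻¹|) * ‖g (dg a1⁻¹ a2⁻¹ z) - g (dg a1⁻¹ a2⁻¹ w)‖ := dg_lip _ _ _ _
      _ ≤ (|b1⁻¹| + |b2⁻¹|) * (45 / 100 * ((|a1⁻¹| + |a2⁻¹|) * ‖z - w‖)) := by
          refine mul_le_mul_of_nonneg_left ?_ pb'.le
          exact (hg _ _).trans (mul_le_mul_of_nonneg_left (dg_lip _ _ _ _) (by norm_num))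
      _ = _ := by ring
  · intro z
    simp only
    rw [dg_inv ha.ne' ha2, hgf, dg_inv hb.ne' hb2]
  · intro z
    simp only
    rw [dg_inv' hb.ne' hb2, hfg, dg_inv' ha.ne' ha2]
  · intro z hz
    have : dg b1 b2 z ∉ Q := by
      intro h
      apply hz
      have h' : dg b1⁻¹ b2⁻¹ (dg b1 b2 z) ∈ Qo := h
      rwa [dg_inv hb.ne' hb2] at h'
    simp only
    rw [hout _ this, dg_lin_dg]
  · rw [ae_restrict_iff' pln_Qo_open.measurableSet, ae_iff]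
    rw [ae_restrict_iff' hQo.measurableSet, ae_iff] at hae
    refine measure_mono_null ?_ (lip_null (dg_lip b1⁻¹ b2⁻¹) hae)
    intro z hz
    refine ⟨dg b1 b2 z, ?_, dg_inv hb.ne' hb2 z⟩
    intro hL
    apply hz
    intro hzQ
    have hzQ' : dg b1 b2 z ∈ Q := by
      change dg b1⁻¹ b2⁻¹ (dg b1 b2 z) ∈ Qo
      rwa [dg_inv hb.ne' hb2]
    obtain ⟨B, hB, c, hc⟩ := hL hzQ'
    refine ⟨cj a1 a2 b1 b2 B, hD B hB, dg a1 a2 c, ?_⟩
    filter_upwards [(dg_cont b1 b2).continuousAt.eventually hc] with w hw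
    rw [hw, dg_add, dg_lin_dg]

end Pool.Agent.Y909.QX
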