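import Pool.Agent.Y909.QX.Blk

/-!
# The cone map over a tilted parallelogram
-/

set_option autoImplicit false

open MeasureTheory Filter Topology Set
open Pool.Agent.H895R3.QC

namespace Pool.Agent.Y909.QX

noncomputable section

def MA : V := (7 / 15, 32 / 87, -(8 / 15), 119 / 87)

def MB : V := (23 / 15, -(32 / 87), 8 / 15, 55 / 87)

def MC : V := (119 / 87, -(8 / 15), 32 / 87, 7 / 15)

def MD : V := (55 / 87, 8 / 15, -(32 / 87), 23 / 15)

/-- the four matrices of the cone map -/
def U4 : Set V := {MA, MB, MC, MD}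

def Pa : V := (170 / 11, -(80 / 11), 160 / 33, 245 / 33)

def Pb : V := (230 / 13, -(80 / 13), 160 / 39, 275 / 39)

theorem Pa_mem : Pa ∈ UU := by
  refine Or.inl ⟨52 / 33, 1, 1, 1, 1, by norm_num, by norm_num, by norm_num, by norm_num,
    by norm_num, by norm_num, by norm_num, by norm_num, by norm_num, by norm_num, by norm_num, ?_⟩
  unfold Pa
  norm_num

theorem Pb_mem : Pb ∈ UU := by
  refine Or.inl ⟨76 / 39, 1, 1, 1, 1, by norm_num, by norm_num, by norm_num, by norm_num,
    by norm_num, by norm_num, by norm_num, by norm_num, by norm_num, by norm_num, by norm_num, ?_⟩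
  unfold Pb
  norm_num

theorem MA_eq : cj (77 / 2550) (-(11 / 100)) 1 (-(340 / 203)) Pa = MA := by
  unfold cj Pa MA
  norm_num

theorem MB_eq : cj (13 / 150) (13 / 100) 1 (20 / 29) Pb = MB := by
  unfold cj Pb MB
  norm_num

theorem MC_eq : cj (77 / 870) (11 / 145) 1 (29 / 35) Pa = MC := by
  unfold cj Pa MC
  norm_num

theorem MD_eq : cj (143 / 4002) (-(13 / 145)) 1 (-(667 / 275)) Pb = MD := by
  unfold cj Pb MD
  norm_num

/-- a solution with boundary values `A` on the unit square, with given constants -/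
def Good (M K D : ℝ) (A : V) : Prop :=
  ∃ f g : ℂ → ℂ, (∀ z w, ‖f z - f w‖ ≤ M * ‖z - w‖) ∧ (∀ z w, ‖g z - g w‖ ≤ K * ‖z - w‖) ∧
      (∀ z, g (f z) = z) ∧ (∀ z, f (g z) = z) ∧
      (∀ z, z ∉ Qo → f z = lin A z) ∧
      (∀ᵐ z ∂(volume.restrict Qo), LocF D f z)

theorem Good.mono {M M' K K' D D' : ℝ} (h1 : M ≤ M') (h2 : K ≤ K') (h3 : D ≤ D') {A : V}
    (h : Good M K D A) : Good M' K' D' A := by
  obtain ⟨f, g, a, b, c, d, e, k⟩ := h
  refine ⟨f, g, fun z w => (a z w).trans (mul_le_mul_of_nonneg_right h1 (norm_nonneg _)),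
    fun z w => (b z w).trans (mul_le_mul_of_nonneg_right h2 (norm_nonneg _)), c, d, e, ?_⟩
  filter_upwards [k] with z hz
  exact hz.mono h3

theorem good_of {P : V} (hP : P ∈ UU) {a1 a2 b1 b2 : ℝ} (ha : 0 < a1) (hb : 0 < b1)
    (hab : 0 < a2 * b2) {A : V} (hA : cj a1 a2 b1 b2 P = A) :
    ∃ M K D : ℝ, 0 < M ∧ 0 < K ∧ Good M K D A := by
  obtain ⟨M, K, D, f, g, hM, hK, h1, h2, h3, h4, h5, h6⟩ := blk hP ha hb hab
  rw [hA] at h5
  exact ⟨M, K, D, hM, hK, f, g, h1, h2, h3, h4, h5, h6⟩

theorem good_all : ∃ M K D : ℝ, 0 < M ∧ 0 < K ∧ ∀ A ∈ U4, Good M K D A := by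
  obtain ⟨M1, K1, D1, m1, k1, g1⟩ := good_of Pa_mem (a1 := 77 / 2550) (by norm_num)
    (b1 := 1) (by norm_num) (by norm_num) MA_eq
  obtain ⟨M2, K2, D2, m2, k2, g2⟩ := good_of Pb_mem (a1 := 13 / 150) (by norm_num)
    (b1 := 1) (by norm_num) (by norm_num) MB_eq
  obtain ⟨M3, K3, D3, m3, k3, g3⟩ := good_of Pa_mem (a1 := 77 / 870) (by norm_num)
    (b1 := 1) (by norm_num) (by norm_num) MC_eq
  obtain ⟨M4, K4, D4, m4, k4, g4⟩ := good_of Pb_mem (a1 := 143 / 4002) (by norm_num)
    (b1 := 1) (by norm_num) (by norm_num) MD_eq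
  refine ⟨max (max M1 M2) (max M3 M4), max (max K1 K2) (max K3 K4), max (max D1 D2) (max D3 D4),
    ?_, ?_, ?_⟩
  · exact lt_of_lt_of_le m1 ((le_max_left _ _).trans (le_max_left _ _))
  · exact lt_of_lt_of_le k1 ((le_max_left _ _).trans (le_max_left _ _))
  · rintro A (rfl | rfl | rfl | rfl)
    · exact g1.mono ((le_max_left _ _).trans (le_max_left _ _))
        ((le_max_left _ _).trans (le_max_left _ _)) ((le_max_left _ _).trans (le_max_left _ _))
    · exact g2.mono ((le_max_right _ _).trans (le_max_left _ _))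
        ((le_max_right _ _).trans (le_max_left _ _)) ((le_max_right _ _).trans (le_max_left _ _))
    · exact g3.mono ((le_max_left _ _).trans (le_max_right _ _))
        ((le_max_left _ _).trans (le_max_right _ _)) ((le_max_left _ _).trans (le_max_right _ _))
    · exact g4.mono ((le_max_right _ _).trans (le_max_right _ _))
        ((le_max_right _ _).trans (le_max_right _ _)) ((le_max_right _ _).trans (le_max_right _ _))

theorem det_U4 {A : V} (hA : A ∈ U4) : vdet A ≠ 0 := by
  rcases hA with rfl | rfl | rfl | rfl <;> simp only [vdet, MA, MB, MC, MD] <;> norm_num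

def uu (z : ℂ) : ℝ := z.re - 20 / 29 * z.im

def vv (z : ℂ) : ℝ := z.im - 20 / 29 * z.re

/-- the pyramid over the parallelogram `|uu| ≤ 1`, `|vv| ≤ 1` -/
def hh (z : ℂ) : ℝ := max 0 (1 - max |uu z| |vv z|)

def vec : ℂ := ⟨8 / 15, 8 / 15⟩

/-- the cone map -/
def f0 (z : ℂ) : ℂ := z + (hh z : ℂ) * vec

theorem uu_cont : Continuous uu := by
  unfold uu
  fun_prop

theorem vv_cont : Continuous vv := by
  unfold vv
  fun_prop

theorem uu_sub (z w : ℂ) : uu z - uu w = uu (z - w) := by
  simp only [uu, Complex.sub_re, Complex.sub_im]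
  ring

theorem vv_sub (z w : ℂ) : vv z - vv w = vv (z - w) := by
  simp only [vv, Complex.sub_re, Complex.sub_im]
  ring

theorem sq_norm (z : ℂ) : ‖z‖ ^ 2 = z.re ^ 2 + z.im ^ 2 := by
  rw [← Complex.normSq_eq_norm_sq, Complex.normSq_apply]
  ring

theorem uu_bound (z : ℂ) : |uu z| ≤ 243 / 200 * ‖z‖ := by
  refine abs_le_of_sq_le_sq ?_ (by positivity)
  rw [mul_pow, sq_norm]
  unfold uu
  nlinarith [sq_nonneg (z.re * (20 / 29) + z.im), sq_nonneg z.re, sq_nonneg z.im]

theorem vv_bound (z : ℂ) : |vv z| ≤ 243 / 200 * ‖z‖ := by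
  refine abs_le_of_sq_le_sq ?_ (by positivity)
  rw [mul_pow, sq_norm]
  unfold vv
  nlinarith [sq_nonneg (z.im * (20 / 29) + z.re), sq_nonneg z.re, sq_nonneg z.im]

theorem hh_lip (z w : ℂ) : |hh z - hh w| ≤ 243 / 200 * ‖z - w‖ := by
  unfold hh
  have h0 := abs_max_sub_max_le_max (0 : ℝ) (1 - max |uu z| |vv z|) 0 (1 - max |uu w| |vv w|)
  rw [sub_self, abs_zero] at h0
  refine (h0.trans (max_le (abs_nonneg _) le_rfl)).trans ?_
  have h1 : (1 - max |uu z| |vv z|) - (1 - max |uu w| |vv w|) =
      max |uu w| |vv w| - max |uu z| |vv z| := by ring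
  rw [h1]
  refine (abs_max_sub_max_le_max _ _ _ _).trans ?_
  refine max_le ?_ ?_
  · refine (abs_abs_sub_abs_le_abs_sub _ _).trans ?_
    rw [uu_sub, norm_sub_rev]
    exact uu_bound _
  · refine (abs_abs_sub_abs_le_abs_sub _ _).trans ?_
    rw [vv_sub, norm_sub_rev]
    exact vv_bound _

theorem vec_norm : ‖vec‖ ≤ 7543 / 10000 := by
  have h : ‖vec‖ ^ 2 ≤ (7543 / 10000) ^ 2 := by
    rw [sq_norm]
    unfold vec
    norm_num
  exact le_of_sq_le_sq h (by norm_num) |> fun h => h

theorem pert (z w : ℂ) : ‖(hh z : ℂ) * vec - (hh w : ℂ) * vec‖ ≤ 23 / 25 * ‖z - w‖ := by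
  rw [← sub_mul, norm_mul, ← Complex.ofReal_sub, Complex.norm_real, Real.norm_eq_abs]
  calc |hh z - hh w| * ‖vec‖ ≤ (243 / 200 * ‖z - w‖) * (7543 / 10000) :=
        mul_le_mul (hh_lip z w) vec_norm (norm_nonneg _) (by positivity)
    _ ≤ 23 / 25 * ‖z - w‖ := by
        have := norm_nonneg (z - w)
        nlinarith

theorem f0_lip (z w : ℂ) : ‖f0 z - f0 w‖ ≤ 2 * ‖z - w‖ := by
  have h1 : f0 z - f0 w = (z - w) + ((hh z : ℂ) * vec - (hh w : ℂ) * vec) := by
    unfold f0; ring
  rw [h1]
  refine (norm_add_le _ _).trans ?_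
  have := pert z w
  have := norm_nonneg (z - w)
  linarith

theorem f0_low (z w : ℂ) : ‖z - w‖ ≤ 25 / 2 * ‖f0 z - f0 w‖ := by
  have h1 : z - w = (f0 z - f0 w) - ((hh z : ℂ) * vec - (hh w : ℂ) * vec) := by
    unfold f0; ring
  have h2 : ‖z - w‖ ≤ ‖f0 z - f0 w‖ + ‖(hh z : ℂ) * vec - (hh w : ℂ) * vec‖ := by
    conv_lhs => rw [h1]
    exact norm_sub_le _ _
  have := pert z w
  linarith

theorem f0_surj : Function.Surjective f0 := by
  intro y
  have hc : ContractingWith (23 / 25 : NNReal) (fun z : ℂ => y - (hh z : ℂ) * vec) := by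
    refine ⟨?_, ?_⟩
    · have : (23 / 25 : ℝ) < 1 := by norm_num
      exact_mod_cast this
    · refine LipschitzWith.of_dist_le_mul fun z w => ?_
      rw [dist_eq_norm, dist_eq_norm]
      have h1 : (y - (hh z : ℂ) * vec) - (y - (hh w : ℂ) * vec) =
          -((hh z : ℂ) * vec - (hh w : ℂ) * vec) := by ring
      rw [h1, norm_neg]
      have := pert z w
      push_cast
      exact this
  refine ⟨hc.fixedPoint, ?_⟩
  have h2 : y - (hh hc.fixedPoint : ℂ) * vec = hc.fixedPoint := hc.fixedPoint_isFixedPt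
  unfold f0
  linear_combination -h2

theorem f0_inv : ∃ g0 : ℂ → ℂ, (∀ z w, ‖g0 z - g0 w‖ ≤ 25 / 2 * ‖z - w‖) ∧
    (∀ z, g0 (f0 z) = z) ∧ (∀ z, f0 (g0 z) = z) := by
  have hinj : Function.Injective f0 := by
    intro z w h
    have := f0_low z w
    rw [h, sub_self, norm_zero, mul_zero] at this
    exact sub_eq_zero.1 (norm_le_zero_iff.1 this)
  refine ⟨Function.surjInv f0_surj, ?_, ?_, Function.surjInv_eq f0_surj⟩
  · intro z w
    have := f0_low (Function.surjInv f0_surj z) (Function.surjInv f0_surj w)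
    rwa [Function.surjInv_eq f0_surj, Function.surjInv_eq f0_surj] at this
  · intro z
    exact hinj (Function.surjInv_eq f0_surj _)

/-- the four open triangles -/
def Wd : Set ℂ := {z | |uu z| < 1 ∧ |vv z| < 1 ∧ |uu z| ≠ |vv z|}

/-- the open exterior of the parallelogram -/
def Out : Set ℂ := {z | 1 < |uu z| ∨ 1 < |vv z|}

theorem Wd_open : IsOpen Wd := by
  have h1 : Continuous (fun z => |uu z|) := uu_cont.abs
  have h2 : Continuous (fun z => |vv z|) := vv_cont.abs
  exact (isOpen_lt h1 continuous_const).inter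
    ((isOpen_lt h2 continuous_const).inter (isOpen_ne_fun h1 h2))

theorem Out_open : IsOpen Out := by
  have h1 : Continuous (fun z => |uu z|) := uu_cont.abs
  have h2 : Continuous (fun z => |vv z|) := vv_cont.abs
  exact (isOpen_lt continuous_const h1).union (isOpen_lt continuous_const h2)

theorem line_null (a b c : ℝ) (h : a ≠ 0 ∨ b ≠ 0) :
    volume {w : ℂ | a * w.re + b * w.im = c} = 0 := unb_line a b c h

theorem rest_null : volume {z : ℂ | z ∉ Wd ∧ z ∉ Out} = 0 := by
  have hb : volume ({w : ℂ | 1 * w.re + (-(20 / 29)) * w.im = 1} ∪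
      ({w : ℂ | 1 * w.re + (-(20 / 29)) * w.im = -1} ∪
      ({w : ℂ | (-(20 / 29)) * w.re + 1 * w.im = 1} ∪
      ({w : ℂ | (-(20 / 29)) * w.re + 1 * w.im = -1} ∪
      ({w : ℂ | (1 + 20 / 29) * w.re + (-(1 + 20 / 29)) * w.im = 0} ∪
      {w : ℂ | (1 - 20 / 29) * w.re + (1 - 20 / 29) * w.im = 0}))))) = 0 := by
    refine measure_union_null (line_null _ _ _ (by norm_num)) ?_
    refine measure_union_null (line_null _ _ _ (by norm_num)) ?_
    refine measure_union_null (line_null _ _ _ (by norm_num)) ?_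
    refine measure_union_null (line_null _ _ _ (by norm_num)) ?_
    exact measure_union_null (line_null _ _ _ (by norm_num)) (line_null _ _ _ (by norm_num))
  refine measure_mono_null ?_ hb
  rintro z ⟨h1, h2⟩
  simp only [Out, mem_setOf_eq, not_or, not_lt] at h2
  simp only [Wd, mem_setOf_eq, not_and, not_not] at h1
  simp only [mem_union, mem_setOf_eq]
  by_cases k1 : |uu z| < 1
  · by_cases k2 : |vv z| < 1
    · have k3 := h1 k1 k2
      rcases abs_eq_abs.1 k3 with k4 | k4
      · right; right; right; right; left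
        unfold uu vv at k4
        linarith
      · right; right; right; right; right
        unfold uu vv at k4
        linarith
    · have k3 : |vv z| = 1 := le_antisymm h2.2 (not_lt.1 k2)
      rcases eq_or_eq_neg_of_abs_eq k3 with k4 | k4
      · right; right; left
        unfold vv at k4
        linarith
      · right; right; right; left
        unfold vv at k4
        linarith
  · have k3 : |uu z| = 1 := le_antisymm h2.1 (not_lt.1 k1)
    rcases eq_or_eq_neg_of_abs_eq k3 with k4 | k4
    · left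
      unfold uu at k4
      linarith
    · right; left
      unfold uu at k4
      linarith

theorem f0_outside {z : ℂ} (h : 1 ≤ |uu z| ∨ 1 ≤ |vv z|) : f0 z = z := by
  have : hh z = 0 := by
    unfold hh
    rw [max_eq_left]
    rcases h with h | h
    · linarith [le_max_left |uu z| |vv z|]
    · linarith [le_max_right |uu z| |vv z|]
  unfold f0
  rw [this]
  simp

theorem far {z : ℂ} (h : 5 ≤ ‖z‖) : 1 ≤ |uu z| ∨ 1 ≤ |vv z| := by
  by_contra hcon
  push Not at hcon
  obtain ⟨h1, h2⟩ := hcon
  rw [abs_lt] at h1 h2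
  unfold uu at h1
  unfold vv at h2
  have h3 : 25 ≤ z.re ^ 2 + z.im ^ 2 := by
    rw [← sq_norm]
    nlinarith
  have x1 : z.re < 29 / 9 := by linarith [h1.2, h2.2]
  have x2 : -(29 / 9) < z.re := by linarith [h1.1, h2.1]
  have y1 : z.im < 29 / 9 := by linarith [h1.2, h2.2]
  have y2 : -(29 / 9) < z.im := by linarith [h1.1, h2.1]
  nlinarith

theorem f0_locU {z : ℂ} (hz : z ∈ Wd) : LocU U4 f0 z := by
  obtain ⟨h1, h2, h3⟩ := hz
  rcases lt_or_gt_of_ne h3 with h | h
  · -- |uu| < |vv|
    rcases le_or_gt 0 (vv z) with hs | hs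
    · rw [abs_of_nonneg hs] at h h2
      refine ⟨MC, by simp [U4], vec, ?_⟩
      have o1 : ∀ᶠ w in 𝓝 z, |uu w| < vv w :=
        uu_cont.abs.continuousAt.eventually_lt vv_cont.continuousAt h
      have o2 : ∀ᶠ w in 𝓝 z, vv w < 1 := vv_cont.continuousAt.eventually_lt continuousAt_const h2
      filter_upwards [o1, o2] with w w1 w2
      have p1 : 0 ≤ vv w := (abs_nonneg _).trans w1.le
      have : hh w = 1 - vv w := by
        unfold hh
        rw [abs_of_nonneg p1, max_eq_right w1.le, max_eq_right (by linarith)]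
      unfold f0
      rw [this]
      apply Complex.ext
      · simp only [lin, MC, vec, vv, Complex.add_re, Complex.mul_re, Complex.ofReal_re,
          Complex.ofReal_im]
        ring
      · simp only [lin, MC, vec, vv, Complex.add_im, Complex.mul_im, Complex.ofReal_re,
          Complex.ofReal_im]
        ring
    · rw [abs_of_neg hs] at h h2
      refine ⟨MD, by simp [U4], vec, ?_⟩
      have o1 : ∀ᶠ w in 𝓝 z, |uu w| < -vv w :=
        uu_cont.abs.continuousAt.eventually_lt vv_cont.neg.continuousAt h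
      have o2 : ∀ᶠ w in 𝓝 z, -vv w < 1 :=
        vv_cont.neg.continuousAt.eventually_lt continuousAt_const h2
      filter_upwards [o1, o2] with w w1 w2
      have p1 : vv w ≤ 0 := by linarith [(abs_nonneg (uu w)).trans w1.le]
      have : hh w = 1 + vv w := by
        unfold hh
        rw [abs_of_nonpos p1, max_eq_right w1.le, max_eq_right (by linarith)]
        ring
      unfold f0
      rw [this]
      apply Complex.ext
      · simp only [lin, MD, vec, vv, Complex.add_re, Complex.mul_re, Complex.ofReal_re,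
          Complex.ofReal_im]
        ring
      · simp only [lin, MD, vec, vv, Complex.add_im, Complex.mul_im, Complex.ofReal_re,
          Complex.ofReal_im]
        ring
  · rcases le_or_gt 0 (uu z) with hs | hs
    · rw [abs_of_nonneg hs] at h h1
      refine ⟨MA, by simp [U4], vec, ?_⟩
      have o1 : ∀ᶠ w in 𝓝 z, |vv w| < uu w :=
        vv_cont.abs.continuousAt.eventually_lt uu_cont.continuousAt h
      have o2 : ∀ᶠ w in 𝓝 z, uu w < 1 := uu_cont.continuousAt.eventually_lt continuousAt_const h1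
      filter_upwards [o1, o2] with w w1 w2
      have p1 : 0 ≤ uu w := (abs_nonneg _).trans w1.le
      have : hh w = 1 - uu w := by
        unfold hh
        rw [abs_of_nonneg p1, max_eq_left w1.le, max_eq_right (by linarith)]
      unfold f0
      rw [this]
      apply Complex.ext
      · simp only [lin, MA, vec, uu, Complex.add_re, Complex.mul_re, Complex.ofReal_re,
          Complex.ofReal_im]
        ring
      · simp only [lin, MA, vec, uu, Complex.add_im, Complex.mul_im, Complex.ofReal_re,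
          Complex.ofReal_im]
        ring
    · rw [abs_of_neg hs] at h h1
      refine ⟨MB, by simp [U4], vec, ?_⟩
      have o1 : ∀ᶠ w in 𝓝 z, |vv w| < -uu w :=
        vv_cont.abs.continuousAt.eventually_lt uu_cont.neg.continuousAt h
      have o2 : ∀ᶠ w in 𝓝 z, -uu w < 1 :=
        uu_cont.neg.continuousAt.eventually_lt continuousAt_const h1
      filter_upwards [o1, o2] with w w1 w2
      have p1 : uu w ≤ 0 := by linarith [(abs_nonneg (vv w)).trans w1.le]
      have : hh w = 1 + uu w := by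
        unfold hh
        rw [abs_of_nonpos p1, max_eq_left w1.le, max_eq_right (by linarith)]
        ring
      unfold f0
      rw [this]
      apply Complex.ext
      · simp only [lin, MB, vec, uu, Complex.add_re, Complex.mul_re, Complex.ofReal_re,
          Complex.ofReal_im]
        ring
      · simp only [lin, MB, vec, uu, Complex.add_im, Complex.mul_im, Complex.ofReal_re,
          Complex.ofReal_im]
        ring

theorem zero_notin : (0 : ℂ) ∉ Wd := by
  rintro ⟨-, -, h⟩
  apply h
  simp [uu, vv]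

theorem f0_zero : f0 0 = vec := by
  unfold f0 hh
  simp [uu, vv]

end

end Pool.Agent.Y909.QX
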