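import Mathlib

/-!
# Definitions for the statement
-/

set_option autoImplicit false

open MeasureTheory Filter Topology

namespace Pool.Agent.Y909.QX

/-- `|f(w) - f(z)| ≤ H |f(w') - f(z)|` whenever `|w - z| = |w' - z|`, with one constant `H` (weak
quasisymmetry; for a homeomorphism of the plane this is quasiconformality). -/
def Quasi (f : ℂ → ℂ) : Prop :=
  ∃ H : ℝ, ∀ z : ℂ, ∀ r > 0, ∀ w ∈ Metric.sphere z r, ∀ w' ∈ Metric.sphere z r,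
    ‖f w - f z‖ ≤ H * ‖f w' - f z‖

/-- At almost every point `f` is differentiable and its differential either preserves both
coordinate directions or switches them. -/
def AxisDiff (f : ℂ → ℂ) : Prop :=
  ∀ᵐ z ∂(volume : Measure ℂ), DifferentiableAt ℝ f z ∧
    (((fderiv ℝ f z 1).im = 0 ∧ (fderiv ℝ f z Complex.I).re = 0) ∨
      ((fderiv ℝ f z 1).re = 0 ∧ (fderiv ℝ f z Complex.I).im = 0))

/-- `f(x, y) = (g(x), h(y))` or `f(x, y) = (g(y), h(x))`. -/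
def IsProductMap (f : ℂ → ℂ) : Prop :=
  ∃ g h : ℝ → ℝ, (∀ z : ℂ, f z = ⟨g z.re, h z.im⟩) ∨ (∀ z : ℂ, f z = ⟨g z.im, h z.re⟩)

/-- `f` is bi-Lipschitz with constant `L`. -/
def BiLip (L : ℝ) (f : ℂ → ℂ) : Prop :=
  (∀ z w, ‖f z - f w‖ ≤ L * ‖z - w‖) ∧ (∀ z w, ‖z - w‖ ≤ L * ‖f z - f w‖)

/-- Near `z`, up to a translation, `f` is `x + iy ↦ a x + i b y` with `a, b > 0`, or
`x + iy ↦ a y + i b x` with `a b < 0`, where `|a| ≤ K |b|` and `|b| ≤ K |a|`. -/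
def LocallyAxial (K : ℝ) (f : ℂ → ℂ) (z : ℂ) : Prop :=
  ∃ (a b : ℝ) (c : ℂ), |a| ≤ K * |b| ∧ |b| ≤ K * |a| ∧
    ((0 < a ∧ 0 < b ∧ ∀ᶠ w in 𝓝 z, f w = ⟨a * w.re, b * w.im⟩ + c) ∨
      (a * b < 0 ∧ ∀ᶠ w in 𝓝 z, f w = ⟨a * w.im, b * w.re⟩ + c))

end Pool.Agent.Y909.QX
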