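import Pool.Agent.Y909.QX.Glue
import Pool.Agent.Y909.QX.Defs

/-!
# Scaling, composition and the final theorem
-/

set_option autoImplicit false

open MeasureTheory Filter Topology Set
open Pool.Agent.H895R3.QC

namespace Pool.Agent.Y909.QX

theorem locF_axial {K : ℝ} {f : ℂ → ℂ} {z : ℂ} (h : LocF K f z) : LocallyAxial K f z := by
  obtain ⟨B, hB, c, hc⟩ := h
  rcases hB with ⟨h1, h2, h3, h4, h5, h6⟩ | ⟨h1, h2, h3, h4, h5⟩
  · refine ⟨B.1, B.2.2.2, c, ?_, ?_, Or.inl ⟨h3, h4, ?_⟩⟩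
    · rwa [abs_of_pos h3, abs_of_pos h4]
    · rwa [abs_of_pos h3, abs_of_pos h4]
    · filter_upwards [hc] with w hw
      rw [hw]
      unfold lin
      rw [h1, h2]
      congr 1
      apply Complex.ext <;> simp
  · refine ⟨B.2.1, B.2.2.1, c, h4, h5, Or.inr ⟨h3, ?_⟩⟩
    filter_upwards [hc] with w hw
    rw [hw]
    unfold lin
    rw [h1, h2]
    congr 1
    apply Complex.ext <;> simp

/-- the matrix as a real linear map -/
noncomputable def linC (B : V) : ℂ →L[ℝ] ℂ :=
  (B.1 • Complex.reCLM + B.2.1 • Complex.imCLM).smulRight (1 : ℂ) +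
    (B.2.2.1 • Complex.reCLM + B.2.2.2 • Complex.imCLM).smulRight Complex.I

theorem linC_apply (B : V) (w : ℂ) : linC B w = lin B w := by
  apply Complex.ext <;> simp [linC, lin]

theorem locF_deriv {K : ℝ} {f : ℂ → ℂ} {z : ℂ} (h : LocF K f z) :
    ∃ B : V, IsF K B ∧ HasFDerivAt f (linC B) z := by
  obtain ⟨B, hB, c, hc⟩ := h
  refine ⟨B, hB, ?_⟩
  have h2 : HasFDerivAt (fun w => linC B w + c) (linC B) z := (linC B).hasFDerivAt.add_const c
  refine h2.congr_of_eventuallyEq ?_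
  filter_upwards [hc] with w hw
  rw [hw, linC_apply]

theorem linC_one (B : V) : linC B 1 = ⟨B.1, B.2.2.1⟩ := by
  rw [linC_apply]
  apply Complex.ext <;> simp [lin]

theorem linC_I (B : V) : linC B Complex.I = ⟨B.2.1, B.2.2.2⟩ := by
  rw [linC_apply]
  apply Complex.ext <;> simp [lin]

theorem axisDiff_of {K : ℝ} {f : ℂ → ℂ} (h : ∀ᵐ z ∂(volume : Measure ℂ), LocF K f z) :
    AxisDiff f := by
  filter_upwards [h] with z hz
  obtain ⟨B, hB, hd⟩ := locF_deriv hz
  refine ⟨hd.differentiableAt, ?_⟩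
  rw [hd.fderiv, linC_one, linC_I]
  rcases hB with ⟨h1, h2, -⟩ | ⟨h1, h2, -⟩
  · exact Or.inl ⟨h2, h1⟩
  · exact Or.inr ⟨h1, h2⟩

theorem clm_real (T : ℂ →L[ℝ] ℂ) (x y : ℝ) : T ⟨x, y⟩ = (x : ℂ) * T 1 + (y : ℂ) * T Complex.I := by
  have h : (⟨x, y⟩ : ℂ) = x • (1 : ℂ) + y • Complex.I := by
    apply Complex.ext <;> simp
  rw [h, map_add, map_smul, map_smul, Complex.real_smul, Complex.real_smul]

theorem axisDiff_comp {K L : ℝ} {g : ℂ → ℂ} (φ : ℂ ≃ₜ ℂ)
    (hφ : ∀ᵐ z ∂(volume : Measure ℂ), LocF K φ z)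
    (hL : ∀ z w, ‖φ.symm z - φ.symm w‖ ≤ L * ‖z - w‖) (hg : AxisDiff g) :
    AxisDiff (g ∘ φ) := by
  have hpre : ∀ᵐ z ∂(volume : Measure ℂ), DifferentiableAt ℝ g (φ z) ∧
      (((fderiv ℝ g (φ z) 1).im = 0 ∧ (fderiv ℝ g (φ z) Complex.I).re = 0) ∨
        ((fderiv ℝ g (φ z) 1).re = 0 ∧ (fderiv ℝ g (φ z) Complex.I).im = 0)) := by
    unfold AxisDiff at hg
    rw [ae_iff] at hg ⊢
    refine measure_mono_null ?_ (lip_null hL hg)
    intro z hz
    exact ⟨φ z, hz, φ.symm_apply_apply z⟩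
  filter_upwards [hφ, hpre] with z hz hz'
  obtain ⟨B, hB, hd⟩ := locF_deriv hz
  obtain ⟨hgd, hgp⟩ := hz'
  have hcomp : HasFDerivAt (g ∘ φ) ((fderiv ℝ g (φ z)).comp (linC B)) z :=
    hgd.hasFDerivAt.comp z hd
  refine ⟨hcomp.differentiableAt, ?_⟩
  rw [hcomp.fderiv, ContinuousLinearMap.comp_apply, ContinuousLinearMap.comp_apply, linC_one,
    linC_I, clm_real _ B.1 B.2.2.1, clm_real _ B.2.1 B.2.2.2]
  rcases hB with ⟨h1, h2, -⟩ | ⟨h1, h2, -⟩
  · rcases hgp with ⟨k1, k2⟩ | ⟨k1, k2⟩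
    · left
      rw [h1, h2]
      simp [k1, k2]
    · right
      rw [h1, h2]
      simp [k1, k2]
  · rcases hgp with ⟨k1, k2⟩ | ⟨k1, k2⟩
    · right
      rw [h1, h2]
      simp [k1, k2]
    · left
      rw [h1, h2]
      simp [k1, k2]

/-- for a homeomorphism, points inside the circle are also controlled -/
theorem quasi_inside (g : ℂ ≃ₜ ℂ) {H : ℝ}
    (hH : ∀ z : ℂ, ∀ r > 0, ∀ w ∈ Metric.sphere z r, ∀ w' ∈ Metric.sphere z r,
      ‖g w - g z‖ ≤ H * ‖g w' - g z‖) {z w w' : ℂ} (h : ‖w - z‖ ≤ ‖w' - z‖) :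
    ‖g w - g z‖ ≤ max H 1 * ‖g w' - g z‖ := by
  have hH1 : H ≤ max H 1 := le_max_left _ _
  rcases eq_or_ne w' z with rfl | hne
  · rw [sub_self, norm_zero] at h
    have : w = w' := sub_eq_zero.1 (norm_le_zero_iff.1 h)
    rw [this]
    simp
  set r := ‖w' - z‖ with hr
  have hr0 : 0 < r := norm_pos_iff.2 (sub_ne_zero.2 hne)
  have hcomp : IsCompact (Metric.closedBall z r) := isCompact_closedBall z r
  obtain ⟨x, hx, hmax⟩ := hcomp.exists_isMaxOn ⟨z, Metric.mem_closedBall_self hr0.le⟩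
    ((g.continuous.sub continuous_const).norm.continuousOn (f := fun x => ‖g x - g z‖))
  have hw : ‖g w - g z‖ ≤ ‖g x - g z‖ := hmax (by
    rw [mem_closedBall_iff_norm]; exact h)
  have hnn := norm_nonneg (g w' - g z)
  by_cases hxs : ‖x - z‖ = r
  · refine hw.trans ((hH z r hr0 x (by rw [mem_sphere_iff_norm]; exact hxs) w'
      (by rw [mem_sphere_iff_norm])).trans ?_)
    exact mul_le_mul_of_nonneg_right hH1 hnn
  · -- interior point: contradiction with openness unless everything vanishes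
    have hxi : x ∈ Metric.ball z r := by
      rw [mem_ball_iff_norm]
      rw [mem_closedBall_iff_norm] at hx
      exact lt_of_le_of_ne hx hxs
    by_cases h0 : g x = g z
    · rw [h0, sub_self, norm_zero] at hw
      have : 0 ≤ max H 1 := le_trans zero_le_one (le_max_right _ _)
      exact hw.trans (by positivity)
    · exfalso
      have hopen : IsOpen (g '' Metric.ball z r) := g.isOpenMap _ Metric.isOpen_ball
      have hmem : g x ∈ g '' Metric.ball z r := ⟨x, hxi, rfl⟩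
      have hct : ContinuousAt (fun t : ℝ => g x + (t : ℂ) * (g x - g z)) 0 := by fun_prop
      have hev : ∀ᶠ t : ℝ in 𝓝 0, g x + (t : ℂ) * (g x - g z) ∈ g '' Metric.ball z r := by
        refine hct.eventually (hopen.mem_nhds ?_)
        simpa using hmem
      obtain ⟨ε, hε, hball⟩ := Metric.eventually_nhds_iff.1 hev
      have hε2 : 0 < ε / 2 := by positivity
      obtain ⟨y, hy, hyeq⟩ := hball (y := ε / 2) (by
        rw [Real.dist_eq, sub_zero, abs_of_pos hε2]; linarith)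
      have hy' := hmax (Metric.ball_subset_closedBall hy)
      have hyn : ‖g y - g z‖ = (1 + ε / 2) * ‖g x - g z‖ := by
        rw [hyeq]
        have e : g x + ((ε / 2 : ℝ) : ℂ) * (g x - g z) - g z =
            ((1 + ε / 2 : ℝ) : ℂ) * (g x - g z) := by
          push_cast; ring
        rw [e, norm_mul, Complex.norm_real, Real.norm_eq_abs, abs_of_pos (by linarith)]
      have hpos : 0 < ‖g x - g z‖ := norm_pos_iff.2 (sub_ne_zero.2 h0)
      have hy'' : ‖g y - g z‖ ≤ ‖g x - g z‖ := hy'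
      rw [hyn] at hy''
      nlinarith

/-- weak quasisymmetry implies control at comparable distances -/
theorem quasi_ratio (g : ℂ ≃ₜ ℂ) (hg : Quasi g) (n : ℕ) : ∃ C : ℝ, 0 ≤ C ∧ ∀ z w w' : ℂ,
    ‖w - z‖ ≤ n * ‖w' - z‖ → ‖g w - g z‖ ≤ C * ‖g w' - g z‖ := by
  obtain ⟨H, hH⟩ := hg
  have hH' : ∀ z : ℂ, ∀ r > 0, ∀ w ∈ Metric.sphere z r, ∀ w' ∈ Metric.sphere z r,
      ‖g w - g z‖ ≤ max H 1 * ‖g w' - g z‖ := fun z r hr w hw w' hw' =>
    (hH z r hr w hw w' hw').trans (mul_le_mul_of_nonneg_right (le_max_left _ _) (norm_nonneg _))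
  set H₁ := max H 1 with hH₁
  have h1 : 1 ≤ H₁ := le_max_right _ _
  have h0 : 0 ≤ H₁ := by linarith
  rcases Nat.eq_zero_or_pos n with hn | hn
  · refine ⟨0, le_rfl, fun z w w' h => ?_⟩
    rw [hn, Nat.cast_zero, zero_mul] at h
    have : w = z := sub_eq_zero.1 (norm_le_zero_iff.1 h)
    rw [this]
    simp
  have hn' : (0 : ℝ) < n := by exact_mod_cast hn
  refine ⟨n * H₁ ^ n, by positivity, fun z w w' h => ?_⟩
  set d : ℂ := (w - z) / n with hd
  have hdn : ‖d‖ ≤ ‖w' - z‖ := by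
    rw [hd, norm_div, Complex.norm_natCast, div_le_iff₀ hn']
    linarith
  set x : ℕ → ℂ := fun i => z + i * d with hx
  have step : ∀ i : ℕ, ‖g (x (i + 1)) - g (x i)‖ ≤ H₁ ^ (i + 1) * ‖g w' - g z‖ := by
    intro i
    induction i with
    | zero =>
      have : ‖x 1 - z‖ ≤ ‖w' - z‖ := by simpa [hx] using hdn
      have h2 := quasi_inside g hH this
      have h3 : x 0 = z := by simp [hx]
      rw [h3, zero_add, pow_one]
      exact h2
    | succ i ih =>
      have e1 : x (i + 1 + 1) - x (i + 1) = d := by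
        simp only [hx]; push_cast; ring
      have e2 : x i - x (i + 1) = -d := by
        simp only [hx]; push_cast; ring
      rcases eq_or_ne d 0 with hd0 | hd0
      · have : x (i + 1 + 1) = x (i + 1) := by
          rw [hd0] at e1
          exact sub_eq_zero.1 e1
        rw [this, sub_self, norm_zero]
        positivity
      · have hdp : 0 < ‖d‖ := norm_pos_iff.2 hd0
        have h2 := hH' (x (i + 1)) ‖d‖ hdp (x (i + 1 + 1))
          (by rw [mem_sphere_iff_norm, e1]) (x i) (by rw [mem_sphere_iff_norm, e2, norm_neg])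
        rw [norm_sub_rev (g (x i))] at h2
        calc ‖g (x (i + 1 + 1)) - g (x (i + 1))‖ ≤ H₁ * ‖g (x (i + 1)) - g (x i)‖ := h2
          _ ≤ H₁ * (H₁ ^ (i + 1) * ‖g w' - g z‖) := mul_le_mul_of_nonneg_left ih h0
          _ = H₁ ^ (i + 1 + 1) * ‖g w' - g z‖ := by rw [pow_succ H₁ (i + 1)]; ring
  have tot : ∀ m : ℕ, ‖g (x m) - g z‖ ≤ ∑ i ∈ Finset.range m, H₁ ^ (i + 1) * ‖g w' - g z‖ := by
    intro m
    induction m with
    | zero => simp [hx]
    | succ m ih =>
      rw [Finset.sum_range_succ]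
      have : g (x (m + 1)) - g z = (g (x m) - g z) + (g (x (m + 1)) - g (x m)) := by ring
      rw [this]
      exact norm_add_le_of_le ih (step m)
  have hxn : x n = w := by
    have : (n : ℂ) ≠ 0 := by exact_mod_cast hn.ne'
    simp only [hx, hd]
    field_simp
    ring
  have := tot n
  rw [hxn] at this
  refine this.trans ?_
  calc ∑ i ∈ Finset.range n, H₁ ^ (i + 1) * ‖g w' - g z‖
      ≤ ∑ _i ∈ Finset.range n, H₁ ^ n * ‖g w' - g z‖ := by
        refine Finset.sum_le_sum (fun i hi => ?_)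
        refine mul_le_mul_of_nonneg_right ?_ (norm_nonneg _)
        exact pow_le_pow_right₀ h1 (Finset.mem_range.1 hi)
    _ = n * H₁ ^ n * ‖g w' - g z‖ := by simp; ring

theorem quasi_comp (g φ : ℂ ≃ₜ ℂ) (hg : Quasi g) {L : ℝ} (hφ : BiLip L φ) : Quasi (g ∘ φ) := by
  obtain ⟨C, hC, h⟩ := quasi_ratio g hg ⌈L * L⌉₊
  have hL0 : 0 ≤ L := by
    have := hφ.1 1 0
    have h2 : (0 : ℝ) ≤ ‖φ 1 - φ 0‖ := norm_nonneg _
    have h3 : ‖(1 : ℂ) - 0‖ = 1 := by simp
    rw [h3, mul_one] at this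
    linarith
  refine ⟨C, fun z r hr w hw w' hw' => ?_⟩
  rw [mem_sphere_iff_norm] at hw hw'
  refine h _ _ _ ?_
  have h1 := hφ.1 w z
  have h2 := hφ.2 w' z
  rw [hw] at h1
  rw [hw'] at h2
  calc ‖φ w - φ z‖ ≤ L * r := h1
    _ ≤ L * (L * ‖φ w' - φ z‖) := mul_le_mul_of_nonneg_left h2 hL0
    _ = (L * L) * ‖φ w' - φ z‖ := by ring
    _ ≤ ⌈L * L⌉₊ * ‖φ w' - φ z‖ := mul_le_mul_of_nonneg_right (Nat.le_ceil _) (norm_nonneg _)

theorem quasi_of_biLip {f : ℂ → ℂ} {L : ℝ} (hf : BiLip L f) : Quasi f := by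
  have hL0 : 0 ≤ L := by
    have := hf.1 1 0
    have h2 : (0 : ℝ) ≤ ‖f 1 - f 0‖ := norm_nonneg _
    have h3 : ‖(1 : ℂ) - 0‖ = 1 := by simp
    rw [h3, mul_one] at this
    linarith
  refine ⟨L * L, fun z r hr w hw w' hw' => ?_⟩
  rw [mem_sphere_iff_norm] at hw hw'
  have h1 := hf.1 w z
  have h2 := hf.2 w' z
  rw [hw] at h1
  rw [hw'] at h2
  calc ‖f w - f z‖ ≤ L * r := h1
    _ ≤ L * (L * ‖f w' - f z‖) := mul_le_mul_of_nonneg_left h2 hL0
    _ = (L * L) * ‖f w' - f z‖ := by ring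

/-- if `g` and `g ∘ φ` are product maps and `g` is injective, then `φ` is a product map -/
theorem product_of_comp {g φ : ℂ → ℂ} (hi : Function.Injective g) (hg : IsProductMap g)
    (hc : IsProductMap (g ∘ φ)) : IsProductMap φ := by
  obtain ⟨g1, g2, hg⟩ := hg
  obtain ⟨p1, p2, hp⟩ := hc
  rcases hg with hg | hg
  · have i1 : Function.Injective g1 := by
      intro x y h
      have : g ⟨x, 0⟩ = g ⟨y, 0⟩ := by rw [hg, hg]; simp only; rw [h]
      exact congrArg Complex.re (hi this)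
    have i2 : Function.Injective g2 := by
      intro x y h
      have : g ⟨0, x⟩ = g ⟨0, y⟩ := by rw [hg, hg]; simp only; rw [h]
      exact congrArg Complex.im (hi this)
    rcases hp with hp | hp
    · refine ⟨fun x => (φ ⟨x, 0⟩).re, fun y => (φ ⟨0, y⟩).im, Or.inl fun z => ?_⟩
      have k := hp z
      have k1 := hp ⟨z.re, 0⟩
      have k2 := hp ⟨0, z.im⟩
      simp only [Function.comp_apply, hg] at k k1 k2
      have l := Complex.ext_iff.1 k
      have l1 := Complex.ext_iff.1 k1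
      have l2 := Complex.ext_iff.1 k2
      simp only at l l1 l2
      exact Complex.ext (i1 (l.1.trans l1.1.symm)) (i2 (l.2.trans l2.2.symm))
    · refine ⟨fun y => (φ ⟨0, y⟩).re, fun x => (φ ⟨x, 0⟩).im, Or.inr fun z => ?_⟩
      have k := hp z
      have k1 := hp ⟨z.re, 0⟩
      have k2 := hp ⟨0, z.im⟩
      simp only [Function.comp_apply, hg] at k k1 k2
      have l := Complex.ext_iff.1 k
      have l1 := Complex.ext_iff.1 k1
      have l2 := Complex.ext_iff.1 k2
      simp only at l l1 l2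
      exact Complex.ext (i1 (l.1.trans l2.1.symm)) (i2 (l.2.trans l1.2.symm))
  · have i1 : Function.Injective g1 := by
      intro x y h
      have : g ⟨0, x⟩ = g ⟨0, y⟩ := by rw [hg, hg]; simp only; rw [h]
      exact congrArg Complex.im (hi this)
    have i2 : Function.Injective g2 := by
      intro x y h
      have : g ⟨x, 0⟩ = g ⟨y, 0⟩ := by rw [hg, hg]; simp only; rw [h]
      exact congrArg Complex.re (hi this)
    rcases hp with hp | hp
    · -- g1 (im φ z) = p1 (re z), g2 (re φ z) = p2 (im z)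
      refine ⟨fun y => (φ ⟨0, y⟩).re, fun x => (φ ⟨x, 0⟩).im, Or.inr fun z => ?_⟩
      have k := hp z
      have k1 := hp ⟨z.re, 0⟩
      have k2 := hp ⟨0, z.im⟩
      simp only [Function.comp_apply, hg] at k k1 k2
      have l := Complex.ext_iff.1 k
      have l1 := Complex.ext_iff.1 k1
      have l2 := Complex.ext_iff.1 k2
      simp only at l l1 l2
      exact Complex.ext (i2 (l.2.trans l2.2.symm)) (i1 (l.1.trans l1.1.symm))
    · refine ⟨fun x => (φ ⟨x, 0⟩).re, fun y => (φ ⟨0, y⟩).im, Or.inl fun z => ?_⟩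
      have k := hp z
      have k1 := hp ⟨z.re, 0⟩
      have k2 := hp ⟨0, z.im⟩
      simp only [Function.comp_apply, hg] at k k1 k2
      have l := Complex.ext_iff.1 k
      have l1 := Complex.ext_iff.1 k1
      have l2 := Complex.ext_iff.1 k2
      simp only at l l1 l2
      exact Complex.ext (i2 (l.2.trans l1.2.symm)) (i1 (l.1.trans l2.1.symm))

/-- a map moving `q` and fixing everything far away is not a product map -/
theorem not_product {φ : ℂ → ℂ} {q : ℂ} {ρ : ℝ} (hρ : 0 < ρ)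
    (hfar : ∀ z, ρ ≤ ‖z - q‖ → φ z = z) (hq : φ q ≠ q) : ¬ IsProductMap φ := by
  rintro ⟨g, h, H | H⟩
  · apply hq
    have a1 := H (q + (ρ : ℂ) * Complex.I)
    rw [hfar _ (by
      rw [add_sub_cancel_left, norm_mul, Complex.norm_I, mul_one, Complex.norm_real,
        Real.norm_eq_abs, abs_of_pos hρ])] at a1
    have a2 := H (q + (ρ : ℂ))
    rw [hfar _ (by
      rw [add_sub_cancel_left, Complex.norm_real, Real.norm_eq_abs, abs_of_pos hρ])] at a2
    have b1 := congrArg Complex.re a1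
    have b2 := congrArg Complex.im a2
    simp only [Complex.add_re, Complex.add_im, Complex.mul_re, Complex.ofReal_re, Complex.I_re,
      mul_zero, Complex.ofReal_im, Complex.I_im, mul_one, sub_self, add_zero] at b1 b2
    rw [H q]
    exact Complex.ext b1.symm b2.symm
  · have a1 := H (q + (ρ : ℂ))
    rw [hfar _ (by
      rw [add_sub_cancel_left, Complex.norm_real, Real.norm_eq_abs, abs_of_pos hρ])] at a1
    have a2 := H (q + ((2 * ρ : ℝ) : ℂ))
    rw [hfar _ (by
      rw [add_sub_cancel_left, Complex.norm_real, Real.norm_eq_abs, abs_of_pos (by linarith)]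
      linarith)] at a2
    have b1 := congrArg Complex.re a1
    have b2 := congrArg Complex.re a2
    simp only [Complex.add_re, Complex.add_im, Complex.ofReal_re, Complex.ofReal_im,
      add_zero] at b1 b2
    linarith

theorem vec_ne : vec ≠ 0 := by
  intro h
  have := congrArg Complex.re h
  simp [vec] at this

theorem main : ∃ L K : ℝ, ∀ (q : ℂ) (ρ : ℝ), 0 < ρ → ∃ φ : ℂ ≃ₜ ℂ,
    (∀ z, ρ ≤ ‖z - q‖ → φ z = z) ∧ φ q ≠ q ∧ BiLip L φ ∧
    (∀ᵐ z ∂(volume : Measure ℂ), LocallyAxial K φ z) ∧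
    Quasi φ ∧ AxisDiff φ ∧ ¬ IsProductMap φ ∧
    ∀ g : ℂ ≃ₜ ℂ, Quasi g → AxisDiff g →
      Quasi (g ∘ φ) ∧ AxisDiff (g ∘ φ) ∧ (IsProductMap g → ¬ IsProductMap (g ∘ φ)) := by
  obtain ⟨M, K, D, f, g, hM, hK, hD, hf, hg, hgf, hfg, hout, h0, hae⟩ := local_map
  refine ⟨max M K, D, fun q ρ hρ => ?_⟩
  set s : ℝ := ρ / 5 with hs
  have hs0 : 0 < s := by positivity
  have hs' : (s : ℂ) ≠ 0 := by exact_mod_cast hs0.ne'
  have hsn : ‖(s : ℂ)‖ = s := by rw [Complex.norm_real, Real.norm_eq_abs, abs_of_pos hs0]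
  have hFL : ∀ {f : ℂ → ℂ} {M : ℝ}, (∀ z w, ‖f z - f w‖ ≤ M * ‖z - w‖) → ∀ z w : ℂ,
      ‖(q + (s : ℂ) * f ((z - q) / s)) - (q + (s : ℂ) * f ((w - q) / s))‖ ≤ M * ‖z - w‖ := by
    intro f M hf z w
    rw [add_sub_add_left_eq_sub, ← mul_sub, norm_mul, hsn]
    calc s * ‖f ((z - q) / s) - f ((w - q) / s)‖ ≤ s * (M * ‖(z - q) / s - (w - q) / s‖) :=
          mul_le_mul_of_nonneg_left (hf _ _) hs0.le
      _ = M * ‖z - w‖ := by
          rw [← sub_div, sub_sub_sub_cancel_right, norm_div, hsn]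
          field_simp
  have hcont : ∀ {f : ℂ → ℂ} {M : ℝ}, (∀ z w, ‖f z - f w‖ ≤ M * ‖z - w‖) → Continuous f := by
    intro f M hf
    have : LipschitzWith (Real.toNNReal M) f := by
      refine LipschitzWith.of_dist_le_mul fun z w => ?_
      rw [dist_eq_norm, dist_eq_norm]
      exact (hf z w).trans (mul_le_mul_of_nonneg_right (Real.le_coe_toNNReal _) (norm_nonneg _))
    exact this.continuous
  let φ : ℂ ≃ₜ ℂ :=
    { toFun := fun z => q + (s : ℂ) * f ((z - q) / s)
      invFun := fun z => q + (s : ℂ) * g ((z - q) / s)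
      left_inv := by
        intro z
        simp only
        rw [add_sub_cancel_left, mul_div_cancel_left₀ _ hs', hgf]
        field_simp
        ring
      right_inv := by
        intro z
        simp only
        rw [add_sub_cancel_left, mul_div_cancel_left₀ _ hs', hfg]
        field_simp
        ring
      continuous_toFun := hcont (hFL hf)
      continuous_invFun := hcont (hFL hg) }
  have hφ : ∀ z, φ z = q + (s : ℂ) * f ((z - q) / s) := fun _ => rfl
  have hφs : ∀ z, φ.symm z = q + (s : ℂ) * g ((z - q) / s) := fun _ => rfl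
  have e1 : ∀ z, ρ ≤ ‖z - q‖ → φ z = z := by
    intro z hz
    have : 5 ≤ ‖(z - q) / (s : ℂ)‖ := by
      rw [norm_div, hsn, le_div_iff₀ hs0, hs]
      linarith
    rw [hφ, hout _ (far this)]
    field_simp
    ring
  have e2 : φ q ≠ q := by
    rw [hφ, sub_self, zero_div, h0]
    intro h
    have : (s : ℂ) * vec = 0 := by linear_combination h
    rcases mul_eq_zero.1 this with h | h
    · exact hs' h
    · exact vec_ne h
  have e3 : BiLip (max M K) φ := by
    refine ⟨fun z w => ?_, fun z w => ?_⟩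
    · exact (hFL hf z w).trans (mul_le_mul_of_nonneg_right (le_max_left _ _) (norm_nonneg _))
    · have := hFL hg (φ z) (φ w)
      rw [← hφs, ← hφs, φ.symm_apply_apply, φ.symm_apply_apply] at this
      exact this.trans (mul_le_mul_of_nonneg_right (le_max_right _ _) (norm_nonneg _))
  have e4 : ∀ᵐ z ∂(volume : Measure ℂ), LocF D φ z := by
    rw [ae_iff] at hae ⊢
    refine measure_mono_null ?_ (pln_cell_null _ q s hae)
    intro z hz
    rw [pln_mem_cell _ _ _ hs0]
    intro hL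
    apply hz
    obtain ⟨B, hB, c, hc⟩ := hL
    obtain ⟨hrk, hadd, hsub, hmul, hcont', hbd, hbij, -⟩ := t_LIN
    refine ⟨B, hB, q + (s : ℂ) * c - lin B q, ?_⟩
    have hcts : Tendsto (fun z' : ℂ => (z' - q) / (s : ℂ)) (𝓝 z) (𝓝 ((z - q) / (s : ℂ))) := by
      have : Continuous (fun z' : ℂ => (z' - q) / (s : ℂ)) := by fun_prop
      exact this.tendsto z
    filter_upwards [hcts.eventually hc] with w hw
    rw [hφ, hw, mul_add, ← hmul]
    have : (s : ℂ) * ((w - q) / (s : ℂ)) = w - q := by field_simp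
    rw [this, hsub]
    ring
  have e5 : ¬ IsProductMap φ := not_product hρ e1 e2
  refine ⟨φ, e1, e2, e3, ?_, quasi_of_biLip e3, axisDiff_of e4, e5, ?_⟩
  · filter_upwards [e4] with z hz
    exact locF_axial hz
  · intro g' hg1 hg2
    refine ⟨quasi_comp g' φ hg1 e3, axisDiff_comp φ e4 (L := K) ?_ hg2, fun h1 h2 => ?_⟩
    · intro z w
      rw [hφs, hφs]
      exact hFL hg z w
    · exact e5 (product_of_comp g'.injective h1 h2)

end Pool.Agent.Y909.QX
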