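import Pool.Agent.Y909.QX.Cone

/-!
# The map which is the identity outside a parallelogram
-/

set_option autoImplicit false

open MeasureTheory Filter Topology Set
open Pool.Agent.H895R3.QC

namespace Pool.Agent.Y909.QX

theorem Wd_not_Out {z : ℂ} (h : z ∈ Wd) : ¬ (1 ≤ |uu z| ∨ 1 ≤ |vv z|) := by
  rintro (h1 | h1)
  · exact absurd h.1 (not_lt.2 h1)
  · exact absurd h.2.1 (not_lt.2 h1)

theorem local_map : ∃ (M K D : ℝ) (f g : ℂ → ℂ), 0 < M ∧ 0 < K ∧ 1 ≤ D ∧
    (∀ z w, ‖f z - f w‖ ≤ M * ‖z - w‖) ∧ (∀ z w, ‖g z - g w‖ ≤ K * ‖z - w‖) ∧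
    (∀ z, g (f z) = z) ∧ (∀ z, f (g z) = z) ∧
    (∀ z, 1 ≤ |uu z| ∨ 1 ≤ |vv z| → f z = z) ∧ f 0 = vec ∧
    (∀ᵐ z ∂(volume : Measure ℂ), LocF D f z) := by
  obtain ⟨M₀, K₀, D₀, hM₀, hK₀, hgood⟩ := good_all
  obtain ⟨g0, hg0, hgf0, hfg0⟩ := f0_inv
  obtain ⟨hrk, hadd, hsub, hmul, hcont, hbd, hbij, -⟩ := t_LIN
  set M : ℝ := max M₀ 2 with hM
  set K : ℝ := max K₀ (25 / 2) with hK
  set D : ℝ := max D₀ 1 with hD
  have hM0 : 0 < M := lt_of_lt_of_le hM₀ (le_max_left _ _)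
  have hK0 : 0 < K := lt_of_lt_of_le hK₀ (le_max_left _ _)
  have hD1 : 1 ≤ D := le_max_right _ _
  have hg : ∀ A : V, ∃ f g : ℂ → ℂ, A ∈ U4 →
      (∀ z w, ‖f z - f w‖ ≤ M * ‖z - w‖) ∧ (∀ z w, ‖g z - g w‖ ≤ K * ‖z - w‖) ∧
      (∀ z, g (f z) = z) ∧ (∀ z, f (g z) = z) ∧
      (∀ z, z ∉ Qo → f z = lin A z) ∧
      (∀ᵐ z ∂(volume.restrict Qo), LocF D f z) := by
    intro A
    by_cases hA : A ∈ U4
    · obtain ⟨f, g, h⟩ := (hgood A hA).mono (le_max_left _ 2) (le_max_left _ (25 / 2))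
        (le_max_left _ 1)
      exact ⟨f, g, fun _ => h⟩
    · exact ⟨id, id, fun h => absurd h hA⟩
  choose F Gi hFG using hg
  obtain ⟨J, q, r, A, c, hJ, hdisj, hnull⟩ := t_COV t_VIT t_PCS U4 f0 Wd Wd_open
    (fun z hz => f0_locU hz) (fun _ => Sq) (fun _ => 1)
    (fun A _ => ⟨pln_Sq_compact, pln_int_ne, one_pos⟩)
  let φ : ℕ → ℂ → ℂ := fun j z => lin (A j) (q j) + (r j : ℂ) * F (A j) ((z - q j) / (r j : ℂ)) + c j
  have hφ : ∀ j z, φ j z = lin (A j) (q j) + (r j : ℂ) * F (A j) ((z - q j) / (r j : ℂ)) + c j :=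
    fun _ _ => rfl
  have hdiff : ∀ j ∈ J, ∀ z w, ‖φ j z - φ j w‖ =
      r j * ‖F (A j) ((z - q j) / (r j : ℂ)) - F (A j) ((w - q j) / (r j : ℂ))‖ := by
    intro j hj z w
    have hr := (hJ j hj).2.1
    rw [hφ, hφ, add_sub_add_right_eq_sub, add_sub_add_left_eq_sub, ← mul_sub, norm_mul,
      Complex.norm_real, Real.norm_eq_abs, abs_of_pos hr]
  have hdist : ∀ j ∈ J, ∀ z w : ℂ, r j * ‖(z - q j) / (r j : ℂ) - (w - q j) / (r j : ℂ)‖ =
      ‖z - w‖ := by
    intro j hj z w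
    have hr := (hJ j hj).2.1
    rw [← sub_div, sub_sub_sub_cancel_right, norm_div, Complex.norm_real, Real.norm_eq_abs,
      abs_of_pos hr]
    field_simp
  obtain ⟨f', g', h1, h2, h3, h4, h5, h6⟩ :=
    (t_GL2 t_LIN t_GLU) M 1 K f0 g0 J (fun j => cell Sq (q j) (r j)) A c φ
      hM0 one_pos hK0.le
      (fun z w => (f0_lip z w).trans
        (mul_le_mul_of_nonneg_right (le_max_right _ _) (norm_nonneg _)))
      (fun z w => (hg0 z w).trans
        (mul_le_mul_of_nonneg_right (le_max_right _ _) (norm_nonneg _))) hgf0 hfg0 (by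
        intro j hj
        obtain ⟨hA, hr, -, hsubW, haff⟩ := hJ j hj
        have hr' : (r j : ℂ) ≠ 0 := by exact_mod_cast hr.ne'
        obtain ⟨a1, a2, a3, a4, a5, -⟩ := hFG (A j) hA
        refine ⟨pln_cell_compact _ _ _ pln_Sq_compact, pln_cell_convex _ _ _ pln_Sq_convex,
          det_U4 hA, haff, ?_, ?_, ?_, ?_⟩
        · intro z hz
          have hz' : (z - q j) / (r j : ℂ) ∉ Qo := by
            intro h
            exact hz ((pln_mem_cell Sq (q j) (r j) hr z).2 (pln_Qo_sub h))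
          rw [hφ, a5 _ hz', ← hmul, ← hadd]
          congr 2
          field_simp
          ring
        · intro z w
          rw [hdiff j hj]
          calc r j * ‖F (A j) ((z - q j) / (r j : ℂ)) - F (A j) ((w - q j) / (r j : ℂ))‖
              ≤ r j * (M * ‖(z - q j) / (r j : ℂ) - (w - q j) / (r j : ℂ)‖) :=
                mul_le_mul_of_nonneg_left (a1 _ _) hr.le
            _ = M * (r j * ‖(z - q j) / (r j : ℂ) - (w - q j) / (r j : ℂ)‖) := by ring
            _ = M * ‖z - w‖ := by rw [hdist j hj]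
        · intro z w
          rw [hdiff j hj]
          have := a2 (F (A j) ((z - q j) / (r j : ℂ))) (F (A j) ((w - q j) / (r j : ℂ)))
          rw [a3, a3] at this
          calc ‖z - w‖ = r j * ‖(z - q j) / (r j : ℂ) - (w - q j) / (r j : ℂ)‖ :=
                (hdist j hj z w).symm
            _ ≤ r j * (K * ‖F (A j) ((z - q j) / (r j : ℂ)) - F (A j) ((w - q j) / (r j : ℂ))‖) :=
                mul_le_mul_of_nonneg_left this hr.le
            _ = K * (r j * ‖F (A j) ((z - q j) / (r j : ℂ)) - F (A j) ((w - q j) / (r j : ℂ))‖) := by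
                ring
        · intro y
          refine ⟨q j + (r j : ℂ) * Gi (A j) ((y - c j - lin (A j) (q j)) / (r j : ℂ)), ?_⟩
          rw [hφ]
          have : (q j + (r j : ℂ) * Gi (A j) ((y - c j - lin (A j) (q j)) / (r j : ℂ)) - q j) /
              (r j : ℂ) = Gi (A j) ((y - c j - lin (A j) (q j)) / (r j : ℂ)) := by
            field_simp
            ring
          rw [this, a4]
          field_simp
          ring) hdisj
  have hcell : ∀ j ∈ J, ∀ z ∈ cell Sq (q j) (r j), z ∈ Wd := fun j hj z hz => (hJ j hj).2.2.2.1 hz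
  refine ⟨M, K, D, f', g', hM0, hK0, hD1, h1, h2, h3, h4, ?_, ?_, ?_⟩
  · intro z hz
    rw [h5 z (fun j hj hzj => Wd_not_Out (hcell j hj z hzj) hz), f0_outside hz]
  · rw [h5 0 (fun j hj hzj => zero_notin (hcell j hj 0 hzj)), f0_zero]
  · -- almost everywhere
    have hbad : volume ({z : ℂ | z ∉ Wd ∧ z ∉ Out} ∪ ((Wd \ ⋃ j ∈ J, cell Sq (q j) (r j)) ∪
        ((⋃ j ∈ J, cell (Sq \ Qo) (q j) (r j)) ∪
          ⋃ j ∈ J, cell (Qo ∩ {w | ¬ LocF D (F (A j)) w}) (q j) (r j)))) = 0 := by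
      refine measure_union_null rest_null
        (measure_union_null hnull (measure_union_null ?_ ?_))
      · refine (measure_biUnion_null_iff J.to_countable).2 ?_
        intro j _
        exact pln_cell_null _ _ _ pln_null
      · refine (measure_biUnion_null_iff J.to_countable).2 ?_
        intro j hj
        refine pln_cell_null _ _ _ ?_
        have hae := (hFG (A j) (hJ j hj).1).2.2.2.2.2
        rw [ae_restrict_iff' pln_Qo_open.measurableSet, ae_iff] at hae
        refine measure_mono_null ?_ hae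
        rintro w ⟨hw1, hw2⟩ hw3
        exact hw2 (hw3 hw1)
    rw [ae_iff]
    refine measure_mono_null ?_ hbad
    intro z hz
    by_contra hcon
    apply hz
    simp only [mem_union, not_or] at hcon
    obtain ⟨c0, c1, c2, c3⟩ := hcon
    by_cases hW : z ∈ Wd
    · have c1' : z ∈ ⋃ j ∈ J, cell Sq (q j) (r j) := by
        by_contra h
        exact c1 ⟨hW, h⟩
      simp only [mem_iUnion] at c1' c2 c3
      obtain ⟨j, hj, hzj⟩ := c1'
      have hr := (hJ j hj).2.1
      have hr' : (r j : ℂ) ≠ 0 := by exact_mod_cast hr.ne'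
      have hw1 : (z - q j) / (r j : ℂ) ∈ Sq := (pln_mem_cell _ _ _ hr z).1 hzj
      have hw2 : (z - q j) / (r j : ℂ) ∈ Qo := by
        by_contra h
        exact c2 ⟨j, hj, (pln_mem_cell _ _ _ hr z).2 ⟨hw1, h⟩⟩
      have hw3 : LocF D (F (A j)) ((z - q j) / (r j : ℂ)) := by
        by_contra h
        exact c3 ⟨j, hj, (pln_mem_cell _ _ _ hr z).2 ⟨hw2, h⟩⟩
      obtain ⟨B, hB', c', hc'⟩ := hw3
      refine ⟨B, hB', lin (A j) (q j) + (r j : ℂ) * c' - lin B (q j) + c j, ?_⟩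
      have hcts : Tendsto (fun z' : ℂ => (z' - q j) / (r j : ℂ)) (𝓝 z)
          (𝓝 ((z - q j) / (r j : ℂ))) := by
        have : Continuous (fun z' : ℂ => (z' - q j) / (r j : ℂ)) := by fun_prop
        exact this.tendsto z
      filter_upwards [hcts.eventually hc', hcts.eventually (pln_Qo_open.mem_nhds hw2)]
        with z' hz1 hz2
      rw [h6 j hj z' ((pln_mem_cell _ _ _ hr z').2 (pln_Qo_sub hz2)), hφ, hz1, mul_add, ← hmul]
      have : (r j : ℂ) * ((z' - q j) / (r j : ℂ)) = z' - q j := by field_simp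
      rw [this, hsub]
      ring
    · have hO : z ∈ Out := by
        by_contra h
        exact c0 ⟨hW, h⟩
      refine ⟨(1, 0, 0, 1), Or.inl ⟨rfl, rfl, one_pos, one_pos, ?_, ?_⟩, 0, ?_⟩
      · change (1 : ℝ) ≤ D * 1
        linarith
      · change (1 : ℝ) ≤ D * 1
        linarith
      · filter_upwards [Out_open.mem_nhds hO] with w hw
        have hw' : 1 ≤ |uu w| ∨ 1 ≤ |vv w| := hw.imp le_of_lt le_of_lt
        rw [h5 w (fun j hj hzj => Wd_not_Out (hcell j hj w hzj) hw'), f0_outside hw']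
        apply Complex.ext <;> simp [lin]

end Pool.Agent.Y909.QX
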